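import Pool.Agent.QSB.StmtsE

/-! # Squad QSB, row RRR: reduced data satisfy RR -/

set_option autoImplicit false

namespace Pool.Agent.QSB.H27

open Pool.Agent.QSX Pool.Agent.QSN Pool.Agent.QSB

theorem rrr : RrrStmt := by
  intro Y hray hred
  exact ⟨hray, fun ρ _ w _ h1 h2 _ _ => absurd ⟨w, h2⟩ (hred ρ h1),
    fun ρ _ _ h1 h2 _ _ _ _ _ _ _ => absurd h2 (hred ρ h1)⟩

end Pool.Agent.QSB.H27
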